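import Pool.Agent.Q4.SPC.Stm2
import Pool.Agent.Q184.SPC.SE1

/-!
# Project SPC (helper4), job SE3: squares of elementary symplectic matrices are products of
commutators, over every ring.  Uses the lemmas of `Pool.Agent.Q184.SPC.SE1` (helper184).
-/

set_option autoImplicit false

open Matrix

namespace Pool.Agent.Q151.SPC

open Q4.SPC Q184.SPC

variable {R : Type} [CommRing R] {n : ℕ}

/-- `2 b E_ii` -/
theorem D1 (i j : Fin n) (h : i ≠ j) (b : R) :
    K (commutator (Sp n R)) (single i i (b + b)) := by
  have h1 := K_lv i j h 1 (single i j b + single j i b)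
    (by rw [transpose_add, transpose_single, transpose_single, add_comm])
  have z1 : single i j (1 : R) * single i j b = (0 : Matrix (Fin n) (Fin n) R) :=
    single_mul_single_of_ne 1 i j i h.symm b
  have z2 : single i j (1 : R) * single j i b = single i i b := by
    rw [single_mul_single_same, one_mul]
  have z3 : single j i b * single j i (1 : R) = (0 : Matrix (Fin n) (Fin n) R) :=
    single_mul_single_of_ne b j i j h 1
  have z4 : single i j b * single j i (1 : R) = single i i b := by
    rw [single_mul_single_same, mul_one]
  have z5 : single i i b * single j i (1 : R) = (0 : Matrix (Fin n) (Fin n) R) :=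
    single_mul_single_of_ne b i i j h 1
  have e : transvection i j (1 : R) * (single i j b + single j i b) * transvection j i (1 : R) -
      (single i j b + single j i b) = single i i (b + b) := by
    rw [transvection, transvection, Matrix.add_mul, Matrix.one_mul,
      Matrix.mul_add (single i j (1 : R)), z1, z2, zero_add, Matrix.mul_add, Matrix.mul_one,
      Matrix.add_mul, Matrix.add_mul, z4, z3, z5, single_add]
    abel
  rw [e] at h1
  exact h1

/-- `2 b (E_ij + E_ji)` -/
theorem D2 (i j : Fin n) (h : i ≠ j) (b : R) :
    K (commutator (Sp n R)) (single i j (b + b) + single j i (b + b)) := by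
  have h1 := K1 i j h 1 b
  have h2 := ((h1.add h1)).sub (D1 i j h b)
  have e : single i j (1 * b) + single j i (1 * b) + single i i (1 * 1 * b) +
      (single i j (1 * b) + single j i (1 * b) + single i i (1 * 1 * b)) - single i i (b + b) =
      single i j (b + b) + single j i (b + b) := by
    rw [one_mul, one_mul, one_mul, single_add, single_add, single_add]
    abel
  rw [e] at h2
  exact h2

theorem K_all2 {C : Subgroup (Sp n R)} (hd : ∀ i b, K C (single i i (b + b)))
    (hs : ∀ i j, i ≠ j → ∀ b, K C (single i j (b + b) + single j i (b + b)))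
    (S : Matrix (Fin n) (Fin n) R) (hS : Sᵀ = S) : K C (S + S) := by
  rw [decomp (S + S) (by rw [transpose_add, hS])]
  refine K.sum _ _ fun i _ => K.sum _ _ fun j _ => ?_
  simp only [Matrix.add_apply]
  rcases lt_trichotomy i j with h | h | h
  · rw [if_pos h, if_pos h, if_neg h.ne, add_zero]
    exact hs i j h.ne _
  · subst h
    rw [if_neg (lt_irrefl i), if_pos (rfl : i = i), zero_add, zero_add]
    exact hd i _
  · rw [if_neg (not_lt.2 h.le), if_neg (not_lt.2 h.le), if_neg h.ne', zero_add, zero_add]
    exact K.zero C

/-- JOB SE3 -/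
theorem t_SE3 : SE3 := by
  intro R _ n hn x hx
  have hex : ∀ i : Fin n, ∃ j : Fin n, i ≠ j := by
    intro i
    have : Nontrivial (Fin n) := Fin.nontrivial_iff_two_le.2 hn
    obtain ⟨j, hj⟩ := exists_ne i
    exact ⟨j, hj.symm⟩
  have hd : ∀ (i : Fin n) (b : R), K (commutator (Sp n R)) (single i i (b + b)) := by
    intro i b
    obtain ⟨j, hj⟩ := hex i
    exact D1 i j hj b
  have hup : ∀ (S : Matrix (Fin n) (Fin n) R) (hS : Sᵀ = S),
      up S hS * up S hS ∈ commutator (Sp n R) := by
    intro S hS
    rw [up_mul S S hS hS]
    exact (K_all2 hd (fun i j hij b => D2 i j hij b) S hS).2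
  have hlo : ∀ (S : Matrix (Fin n) (Fin n) R) (hS : Sᵀ = S),
      lo S hS * lo S hS ∈ commutator (Sp n R) := by
    intro S hS
    have hS' : (-S)ᵀ = -S := by rw [transpose_neg, hS]
    have h1 := symJ_up (-S) hS'
    have h2 : lo (- -S) (by rw [transpose_neg, transpose_neg, hS]) = lo S hS := by
      congr 1
      exact neg_neg S
    rw [← h2, ← h1]
    have e : ∀ a u : Sp n R, a * u * a⁻¹ * (a * u * a⁻¹) = a * (u * u) * a⁻¹ := by
      intro a u
      group
    rw [e]
    exact Subgroup.Normal.conj_mem inferInstance _ (hup _ hS') _
  rcases hx with ⟨S, hS, e⟩ | ⟨S, hS, e⟩ | ⟨i, j, hij, b, e⟩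
  · have : x = up S hS := by
      refine Subtype.ext ?_
      rw [e, one_smul]
      rfl
    rw [this]
    exact hup S hS
  · have : x = lo S hS := by
      refine Subtype.ext ?_
      rw [e, one_smul]
      rfl
    rw [this]
    exact hlo S hS
  · have e1 : x = lvt i j hij b := by
      refine Subtype.ext ?_
      rw [e, one_mul]
      rfl
    have h1 : (single i j (1 : R) + single j i (1 : R))ᵀ = single i j (1 : R) + single j i (1 : R) := by
      rw [transpose_add, transpose_single, transpose_single, add_comm]
    have h2 : (single j j b : Matrix (Fin n) (Fin n) R)ᵀ = single j j b := transpose_single _ _ _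
    have h3 : (single i i (-b) : Matrix (Fin n) (Fin n) R)ᵀ = single i i (-b) :=
      transpose_single _ _ _
    have h4 := K3 i j hij b h1 h2 h3
    set c := up (single i j (1 : R) + single j i (1 : R)) h1 * lo (single j j b) h2 *
      (up (single i j (1 : R) + single j i (1 : R)) h1)⁻¹ * (lo (single j j b) h2)⁻¹ with hc
    have hcm : c ∈ commutator (Sp n R) :=
      Subgroup.commutator_mem_commutator (Subgroup.mem_top _) (Subgroup.mem_top _)
    set u := (up (single i i (-b)) h3)⁻¹ with hu
    have h5 : x = c * u := by
      rw [h4, hu, mul_inv_cancel_right, e1]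
    have hu2 : u * u ∈ commutator (Sp n R) := by
      have e2 : u * u = (up (single i i (-b)) h3 * up (single i i (-b)) h3)⁻¹ := by
        rw [hu, _root_.mul_inv_rev]
      rw [e2]
      exact inv_mem (hup _ h3)
    have e3 : x * x = c * (u * c * u⁻¹) * (u * u) := by
      rw [h5]
      group
    rw [e3]
    exact mul_mem (mul_mem hcm (Subgroup.Normal.conj_mem inferInstance c hcm u)) hu2

end Pool.Agent.Q151.SPC
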