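import Pool.Agent.Q4.SPC.Stm2
import Pool.Agent.Q5.SPC.SE2

/-!
# Project SPC (helper4), job SE4: additive functions on `Sp_{2n}(O_v)` with values in a group without
elements of order two vanish.  Uses the lemmas of `Pool.Agent.Q5.SPC.SE2` (helper5).
-/

set_option autoImplicit false

open IsDedekindDomain NumberField Matrix Q4.GLC

noncomputable section

namespace Pool.Agent.Q151.SPC

open Q4.SPC Pool.Agent.Q5.SPC
open Q4.GLC.Cnt (Ov kap ev residue_eq_zero card_kap fin_kap)

/-- JOB SE4 -/
theorem t_SE4 : SE4 := by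
  intro hSA hSE3 F _ _ n hn v A _ h2 φ hφ g hg
  obtain ⟨B, rfl⟩ := lam_surj v g hg
  let f : Sp n (Ov v) →* Multiplicative A :=
    MonoidHom.mk' (fun B => Multiplicative.ofAdd (φ (lam n v B))) (fun B C => by
      rw [map_mul, hφ _ (lam_mem v B) _ (lam_mem v C)]
      rfl)
  have hB : B ∈ f.ker := by
    have h1 := hSA (Ov v) Per.sr1_local n B
    refine (Subgroup.closure_le _).2 ?_ h1
    intro x hx
    have h3 : x * x ∈ f.ker :=
      Abelianization.commutator_subset_ker f (hSE3 (Ov v) n hn x hx)
    rw [MonoidHom.mem_ker, map_mul] at h3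
    change f x = 1
    have h4 : (f x).toAdd + (f x).toAdd = 0 := by
      rw [← toAdd_mul, h3, toAdd_one]
    have h5 := h2 _ h4
    exact Multiplicative.toAdd.injective h5
  exact hB

end Pool.Agent.Q151.SPC

end
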